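import Mathlib

set_option autoImplicit false

open Set PiNat MeasureTheory Metric Filter Topology Cardinal
open scoped ENNReal NNReal

namespace Pool.Agent.Results.MP_decccb_lc.Full

/-- The metric `d₂ (x, y) = 2 ^ (- min {n | x n ≠ y n})` on infinite binary sequences. -/
noncomputable instance met : MetricSpace (ℕ → Bool) := PiNat.metricSpace

/-- A subtree. A position is a list of moves with the most recent move first, so that the
position after `n` moves of the play `x` is `res x n = [x (n-1), ..., x 0]`. -/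
def Subtree (T : Set (List Bool)) : Prop :=
  (∀ b p, b :: p ∈ T → p ∈ T) ∧ ∀ p ∈ T, ∃ b, b :: p ∈ T

def canopy (T : Set (List Bool)) : Set (ℕ → Bool) := {x | ∀ n, res x n ∈ T}

/-- A strategy in `T` for the player who moves at the stages `n` with `n % 2 = i`. -/
def Strat (T : Set (List Bool)) (i : ℕ) (s : List Bool → Bool) : Prop :=
  ∀ p ∈ T, p.length % 2 = i → s p :: p ∈ T

/-- The play `x` follows `s` at the stages `n` with `n % 2 = i`. -/
def Follows (i : ℕ) (s : List Bool → Bool) (x : ℕ → Bool) : Prop :=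
  ∀ n, n % 2 = i → x n = s (res x n)

def WinI (T : Set (List Bool)) (W : Set (ℕ → Bool)) : Prop :=
  ∃ s, Strat T 0 s ∧ ∀ x ∈ canopy T, Follows 0 s x → x ∈ W

def WinII (T : Set (List Bool)) (W : Set (ℕ → Bool)) : Prop :=
  ∃ s, Strat T 1 s ∧ ∀ x ∈ canopy T, Follows 1 s x → x ∉ W

instance bs : @BorelSpace (ℕ → Bool) met.toUniformSpace.toTopologicalSpace _ := Pi.borelSpace

def cyl (p : List Bool) : Set (ℕ → Bool) := {x | res x p.length = p}

theorem cyl_cons {x : ℕ → Bool} {b : Bool} {p : List Bool} :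
    x ∈ cyl (b :: p) ↔ x p.length = b ∧ x ∈ cyl p := by simp [cyl, res_succ]

theorem cyl_res {x y : ℕ → Bool} {n : ℕ} : y ∈ cyl (res x n) ↔ res y n = res x n := by
  simp [cyl]

theorem cyl_split (p : List Bool) : cyl p ⊆ cyl (false :: p) ∪ cyl (true :: p) := fun x hx => by
  cases h : x p.length
  · exact Or.inl (cyl_cons.2 ⟨h, hx⟩)
  · exact Or.inr (cyl_cons.2 ⟨h, hx⟩)

theorem cv (n : ℕ) : ENNReal.ofReal ((1 / 2) ^ n) = 2⁻¹ ^ n := by
  rw [ENNReal.ofReal_pow (by norm_num), one_div, ENNReal.ofReal_inv_of_pos two_pos]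
  simp

theorem dle {t : Set (ℕ → Bool)} {n : ℕ} (h : ∀ x ∈ t, ∀ y ∈ t, res x n = res y n) :
    ediam t ≤ 2⁻¹ ^ n := by
  refine ediam_le fun x hx y hy => ?_
  rw [edist_dist, ← cv]
  exact ENNReal.ofReal_le_ofReal (mem_cylinder_iff_dist_le.1
    (mem_cylinder_iff.2 fun i hi => res_eq_res.1 (h x hx y hy) hi))

theorem dcyl {t : Set (ℕ → Bool)} {p : List Bool} (h : t ⊆ cyl p) : ediam t ≤ 2⁻¹ ^ p.length :=
  dle fun _ hx _ hy => (h hx).trans (h hy).symm

theorem dge {x y : ℕ → Bool} {n : ℕ} (h : x n ≠ y n) : 2⁻¹ ^ n ≤ edist x y := by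
  rw [edist_dist, ← cv]
  exact ENNReal.ofReal_le_ofReal (not_lt.1 fun k => h (apply_eq_of_dist_lt k le_rfl))

theorem tz : Tendsto (fun n : ℕ => (2⁻¹ : ℝ≥0∞) ^ n) atTop (𝓝 0) :=
  ENNReal.tendsto_pow_atTop_nhds_zero_of_lt_one (by simp)

theorem play (g : List Bool → Bool) : ∃ x : ℕ → Bool, ∀ n, x n = g (res x n) := by
  let nd : ℕ → List Bool := fun n => Nat.rec [] (fun _ p => g p :: p) n
  have : ∀ n, res (fun n => g (nd n)) n = nd n := by
    intro n
    induction n with
    | zero => rfl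
    | succ n ih => rw [res_succ, ih]
  exact ⟨fun n => g (nd n), fun n => by rw [this]⟩

theorem thin {Z : Set (ℕ → Bool)} (b : (ℕ → Bool) → ℕ → Bool)
    (h : ∀ x ∈ Z, ∀ y ∈ Z, ∀ k, res x (2 * k) = res y (2 * k) → b x k = b y k →
      res x (2 * k + 2) = res y (2 * k + 2)) : dimH Z ≤ 1 / 2 := by
  have key : ∀ k, ∀ x ∈ Z, ∀ y ∈ Z, (∀ i < k, b x i = b y i) → res x (2 * k) = res y (2 * k) := by
    intro k
    induction k with
    | zero => intros; rfl
    | succ k ih =>
      intro x hx y hy e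
      exact h x hx y hy k (ih x hx y hy fun i hi => e i (by omega)) (e k (by omega))
  let t : ∀ k : ℕ, (Fin k → Bool) → Set (ℕ → Bool) := fun k v => {x ∈ Z | ∀ i : Fin k, b x i = v i}
  have ht : ∀ k v, ediam (t k v) ≤ 2⁻¹ ^ (2 * k) := fun k v => dle fun x hx y hy =>
    key k x hx.1 y hy.1 fun i hi => (hx.2 ⟨i, hi⟩).trans (hy.2 ⟨i, hi⟩).symm
  have e : ((1 / 2 : ℝ≥0) : ℝ≥0∞) = 1 / 2 := by simp
  rw [← e]
  refine dimH_le_of_hausdorffMeasure_ne_top (ne_top_of_le_ne_top ENNReal.one_ne_top ?_)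
  refine (Measure.hausdorffMeasure_le_liminf_sum _ Z (l := atTop) (fun k => 2⁻¹ ^ (2 * k))
    (tz.comp (tendsto_id.const_mul_atTop' two_pos)) t (Eventually.of_forall ht)
    (Eventually.of_forall fun k x hx => mem_iUnion.2 ⟨fun i => b x i, hx, fun _ => rfl⟩)).trans ?_
  refine liminf_le_of_frequently_le' (Frequently.of_forall fun k => ?_)
  have : ∀ v, ediam (t k v) ^ ((1 / 2 : ℝ≥0) : ℝ) ≤ 2⁻¹ ^ k := fun v => by
    refine (ENNReal.rpow_le_rpow (ht k v) (by positivity)).trans (le_of_eq ?_)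
    rw [pow_mul', ← ENNReal.rpow_natCast, ← ENNReal.rpow_mul]
    norm_num
  refine (Finset.sum_le_card_nsmul _ _ _ fun v _ => this v).trans (le_of_eq ?_)
  simp [← mul_pow, ENNReal.mul_inv_cancel]

theorem par {Z : Set (ℕ → Bool)} (j m : ℕ)
    (h : ∀ x ∈ Z, ∀ y ∈ Z, ∀ n, m ≤ n → n % 2 = j % 2 → res x n = res y n → x n = y n) :
    dimH Z ≤ 1 / 2 := by
  have : Z ⊆ ⋃ q : List Bool, {x ∈ Z | res x m = q} := fun x hx => mem_iUnion.2 ⟨_, hx, rfl⟩
  refine (dimH_mono this).trans ?_
  rw [dimH_iUnion]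
  refine iSup_le fun q => thin (fun x k => x (2 * k + 1 - j % 2)) fun x hx y hy k e1 e2 => ?_
  have h' : ∀ n, n % 2 = j % 2 → res x n = res y n → x n = y n := fun n a b => by
    by_cases c : m ≤ n
    · exact h x hx.1 y hy.1 n c a b
    · exact res_eq_res.1 (hx.2.trans hy.2.symm) (by omega)
  have a0 : x (2 * k) = y (2 * k) := by
    rcases Nat.mod_two_eq_zero_or_one j with c | c
    · exact h' _ (by omega) e1
    · simpa [c] using e2
  have a1 : res x (2 * k + 1) = res y (2 * k + 1) := by rw [res_succ, res_succ, a0, e1]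
  have a2 : x (2 * k + 1) = y (2 * k + 1) := by
    rcases Nat.mod_two_eq_zero_or_one j with c | c
    · simpa [c] using e2
    · exact h' _ (by omega) a1
  rw [res_succ, res_succ y, a1, a2]

theorem exY (F : Set (ℕ → Bool)) (s : List Bool → Prop) :
    ∃ Y : ℕ → List Bool → Set (ℕ → Bool), (∀ p, s p → Y 0 p = F ∩ cyl p) ∧
      (∀ p, ¬ s p → Y 0 p = ∅) ∧ (∀ d p, s p → Y (d + 1) p = ∅) ∧
      ∀ d p, ¬ s p → Y (d + 1) p = Y d (false :: p) ∪ Y d (true :: p) := by
  classical
  exact ⟨fun d => Nat.rec (motive := fun _ => List Bool → Set (ℕ → Bool))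
    (fun p => if s p then F ∩ cyl p else ∅)
    (fun _ G p => if s p then ∅ else G (false :: p) ∪ G (true :: p)) d,
    fun p h => if_pos h, fun p h => if_neg h, fun d p h => if_pos h, fun d p h => if_neg h⟩

theorem besi {F : Set (ℕ → Bool)} (hF : ∀ x, (∀ n, ∃ y ∈ F, res y n = res x n) → x ∈ F)
    {δ : ℝ≥0} (h0 : 0 < δ) (hd : (δ : ℝ≥0∞) < dimH F) : ∃ A ⊆ F, dimH A = δ := by
  classical
  have d0 : (0 : ℝ) < δ := h0
  let m : Set (ℕ → Bool) → ℝ≥0∞ := fun s => ediam s ^ (δ : ℝ)
  have m0 : m ∅ = 0 := by simp [m, d0]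
  let ν := OuterMeasure.ofFunction m m0
  let P := OuterMeasure.mkMetric'.pre m
  have hH : ∀ S c, (∀ r > 0, P r S ≤ c) → μH[δ] S ≤ c := by
    intro S c h
    have := congrFun (OuterMeasure.coe_mkMetric (X := ℕ → Bool) fun r => r ^ (δ : ℝ)) S
    rw [Measure.hausdorffMeasure, ← this, OuterMeasure.mkMetric, OuterMeasure.mkMetric',
      OuterMeasure.iSup_apply]
    refine iSup_le fun r => ?_
    rw [OuterMeasure.iSup_apply]
    exact iSup_le (h r)
  let cap : List Bool → ℝ≥0∞ := fun p => ν (F ∩ cyl p)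
  have capP : ∀ r n, 2⁻¹ ^ n ≤ r → ∀ p : List Bool, n ≤ p.length → P r (F ∩ cyl p) ≤ cap p := by
    intro r n hr p hp
    have hD : ∀ s, ediam (s ∩ (F ∩ cyl p)) ≤ r := fun s =>
      (dcyl fun _ hx => hx.2.2).trans ((pow_le_pow_right_of_le_one' (by simp) hp).trans hr)
    have : OuterMeasure.restrict (F ∩ cyl p) (P r) ≤ ν := OuterMeasure.le_ofFunction.2 fun s => by
      rw [OuterMeasure.restrict_apply]
      exact (OuterMeasure.mkMetric'.pre_le (hD s)).trans
        (ENNReal.rpow_le_rpow (ediam_mono inter_subset_left) d0.le)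
    have := this (F ∩ cyl p)
    rwa [OuterMeasure.restrict_apply, inter_self] at this
  have exn : ∀ r : ℝ≥0∞, r > 0 → ∃ n : ℕ, 2⁻¹ ^ n ≤ r := fun r hr =>
    (tz.eventually (ge_mem_nhds hr)).exists
  have capw : ∀ p, cap p ≤ (2⁻¹ ^ p.length) ^ (δ : ℝ) := fun p =>
    (OuterMeasure.ofFunction_le _).trans (ENNReal.rpow_le_rpow (dcyl fun _ hx => hx.2) d0.le)
  have caps : ∀ p, cap p ≤ cap (false :: p) + cap (true :: p) := fun p => by
    refine le_trans (measure_mono ?_) (measure_union_le _ _)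
    rw [← inter_union_distrib_left]
    exact inter_subset_inter_right _ (cyl_split p)
  have down : ∀ (Q : List Bool → Prop) (n : ℕ), (∀ p, Q (false :: p) → Q (true :: p) → Q p) →
      (∀ p : List Bool, p.length = n → Q p) → Q [] := by
    intro Q n h1 h2
    have : ∀ k, ∀ p : List Bool, p.length + k = n → Q p := by
      intro k
      induction k with
      | zero => exact h2
      | succ k ih => exact fun p hp => h1 p (ih _ (by simp; omega)) (ih _ (by simp; omega))
    exact this n [] (by simp)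
  have cap0 : cap [] ≠ 0 := by
    intro h
    have : μH[δ] F ≤ 0 := hH F 0 fun r hr => by
      obtain ⟨n, hn⟩ := exn r hr
      have := down (fun p => P r (F ∩ cyl p) ≤ 0) n (fun p a b => ?_) fun p hp =>
        (capP r n hn p hp.ge).trans (h ▸ measure_mono (by simp [cyl]))
      · simpa [cyl] using this
      · refine le_trans (measure_mono ?_) ((measure_union_le _ _).trans
          ((add_le_add a b).trans (by simp)))
        rw [← inter_union_distrib_left]
        exact inter_subset_inter_right _ (cyl_split p)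
    rw [hausdorffMeasure_of_lt_dimH hd] at this
    simp at this
  let μ : List Bool → ℝ≥0∞ := fun p => List.rec (cap [])
    (fun b p a => if b then a - min a (cap (false :: p)) else min a (cap (false :: p))) p
  have μf : ∀ p, μ (false :: p) = min (μ p) (cap (false :: p)) := fun p => rfl
  have μt : ∀ p, μ (true :: p) = μ p - μ (false :: p) := fun p => rfl
  have μa : ∀ p, μ (false :: p) + μ (true :: p) = μ p := fun p => by
    rw [μt, add_tsub_cancel_of_le (μf p ▸ min_le_left _ _)]
  have μc : ∀ p, μ p ≤ cap p := by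
    intro p
    induction p with
    | nil => exact le_rfl
    | cons b p ih =>
      cases b
      · exact min_le_right _ _
      · rw [μt, μf, tsub_le_iff_left, ← min_add_add_right]
        exact le_min le_self_add (ih.trans (caps p))
  have μtop : ∀ p, μ p ≠ ⊤ := fun p => ne_top_of_le_ne_top
    (ENNReal.rpow_ne_top_of_nonneg d0.le (ENNReal.pow_ne_top (by simp))) ((μc p).trans (capw p))
  let S := {x : ℕ → Bool | ∀ n, μ (res x n) ≠ 0}
  have SF : S ⊆ F := fun x hx => hF x fun n => by
    by_contra k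
    push Not at k
    have : F ∩ cyl (res x n) = ∅ := eq_empty_of_forall_notMem fun y hy => k y hy.1 (cyl_res.1 hy.2)
    exact hx n (le_antisymm ((μc _).trans (by simp [cap, this])) zero_le)
  refine ⟨S, SF, le_antisymm ?_ (le_dimH_of_hausdorffMeasure_ne_zero fun hz => ?_)⟩
  · let U := {x ∈ F | ∀ n, ∃ k, n ≤ k ∧ μ (res x k) = cap (res x k)}
    let V : List Bool → Set (ℕ → Bool) := fun p =>
      {x ∈ S ∩ cyl p | ∀ k, p.length ≤ k → μ (res x k) ≠ cap (res x k)}
    have hS : S ⊆ U ∪ ⋃ p, V p := fun x hx => by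
      by_cases k : x ∈ U
      · exact Or.inl k
      · simp only [U, mem_setOf_eq, SF hx, true_and] at k
        push Not at k
        obtain ⟨n, hn⟩ := k
        exact Or.inr (mem_iUnion.2 ⟨res x n, ⟨hx, cyl_res.2 rfl⟩, by simpa using hn⟩)
    have hV : ∀ p, (V p).Subsingleton := by
      have a : ∀ p, ∀ x ∈ V p, ∀ y ∈ V p, ∀ k, p.length ≤ k → res x k = res y k → x k = false →
          y k = false := by
        intro p x hx y hy k hk e e1
        by_contra e2
        have e2 : y k = true := by simpa using e2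
        have b1 := hx.2 (k + 1) (by omega)
        have b2 := hy.1.1 (k + 1)
        rw [res_succ, e1] at b1
        rw [res_succ, e2, ← e, μt] at b2
        rcases min_choice (μ (res x k)) (cap (false :: res x k)) with c | c
        · exact b2 (by rw [μf, c, tsub_self])
        · exact b1 c
      intro p x hx y hy
      have : ∀ k, res x (p.length + k) = res y (p.length + k) := by
        intro k
        induction k with
        | zero => exact hx.1.2.trans hy.1.2.symm
        | succ k ih =>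
          have e : x (p.length + k) = y (p.length + k) := by
            rw [Bool.eq_iff_iff, ← not_iff_not, Bool.not_eq_true, Bool.not_eq_true]
            exact ⟨a p x hx y hy _ (by omega) ih, a p y hy x hx _ (by omega) ih.symm⟩
          rw [← add_assoc, res_succ, res_succ, ih, e]
      funext i
      exact res_eq_res.1 (this (i + 1)) (by omega)
    refine (dimH_mono hS).trans ?_
    rw [dimH_union, dimH_countable (countable_iUnion fun p => (hV p).countable)]
    refine max_le (dimH_le_of_hausdorffMeasure_ne_top (ne_top_of_le_ne_top (μtop [])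
      (hH U _ fun r hr => ?_))) zero_le
    obtain ⟨n, hn⟩ := exn r hr
    obtain ⟨Y, Y0, Y0', Y1, Y1'⟩ := exY F fun p => μ p = cap p
    have Ys : ∀ D, ∀ p : List Bool, n ≤ p.length → ∑ d ∈ Finset.range D, P r (Y d p) ≤ μ p := by
      intro D
      induction D with
      | zero => simp
      | succ D ih =>
        intro p hp
        rw [Finset.sum_range_succ']
        rcases Classical.em (μ p = cap p) with c | c
        · simp only [Y0 p c, Y1 _ p c]
          simpa [c] using capP r n hn p hp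
        · simp only [Y0' p c, Y1' _ p c]
          rw [measure_empty, add_zero, ← μa]
          refine (Finset.sum_le_sum fun d _ => measure_union_le _ _).trans ?_
          rw [Finset.sum_add_distrib]
          exact add_le_add (ih _ (by simp; omega)) (ih _ (by simp; omega))
    have Yc : ∀ x ∈ F, ∀ e k, μ (res x (k + e)) = cap (res x (k + e)) → ∃ d, x ∈ Y d (res x k) := by
      intro x hx e
      induction e with
      | zero => exact fun k c => ⟨0, by rw [Y0 (res x k) c]; exact ⟨hx, cyl_res.2 rfl⟩⟩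
      | succ e ih =>
        intro k c
        rcases Classical.em (μ (res x k) = cap (res x k)) with c' | c'
        · exact ⟨0, by rw [Y0 _ c']; exact ⟨hx, cyl_res.2 rfl⟩⟩
        · obtain ⟨d, hd⟩ := ih (k + 1) (by rwa [add_assoc, add_comm 1 e])
          refine ⟨d + 1, ?_⟩
          rw [Y1' _ _ c']
          rw [res_succ] at hd
          cases hh : x k
          · exact Or.inl (hh ▸ hd)
          · exact Or.inr (hh ▸ hd)
    have := down (fun p => P r (U ∩ cyl p) ≤ μ p) n (fun p a b => ?_) fun p hp => ?_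
    · simpa [cyl] using this
    · refine le_trans (measure_mono ?_) ((measure_union_le _ _).trans
        ((add_le_add a b).trans (μa p).le))
      rw [← inter_union_distrib_left]
      exact inter_subset_inter_right _ (cyl_split p)
    · refine le_trans (measure_mono ?_) ((measure_iUnion_le fun d => Y d p).trans
        (ENNReal.tsum_le_of_sum_range_le fun D => Ys D p hp.ge))
      rintro x ⟨hx, hx'⟩
      obtain ⟨k, hk, c⟩ := hx.2 p.length
      obtain ⟨e, rfl⟩ := Nat.exists_eq_add_of_le hk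
      obtain ⟨d, hd⟩ := Yc x hx.1 e _ c
      exact mem_iUnion.2 ⟨d, hx' ▸ hd⟩
  · have hc : μ [] / 2 ≠ 0 := by simpa using cap0
    rw [Measure.hausdorffMeasure_apply] at hz
    have h1 := (le_iSup₂_of_le (1 : ℝ≥0∞) one_pos le_rfl).trans hz.le |>.trans_lt
      (pos_iff_ne_zero.2 hc)
    simp only [iInf_lt_iff] at h1
    obtain ⟨t, ht, -, hw⟩ := h1
    obtain ⟨ε, ε0, hε⟩ := ENNReal.exists_pos_sum_of_countable' hc ℕ
    let u : ℕ → ℝ≥0∞ := fun i => (⨆ _ : (t i).Nonempty, ediam (t i) ^ (δ : ℝ)) + ε i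
    let R : List Bool → ℝ≥0∞ := fun p => ∑' i, if (t i).Nonempty ∧ t i ⊆ cyl p then u i else 0
    have R0 : R [] < μ [] := by
      refine lt_of_le_of_lt (ENNReal.tsum_le_tsum (g := u) fun i => by split_ifs <;> simp) ?_
      rw [ENNReal.tsum_add, ← ENNReal.add_halves (μ [])]
      exact ENNReal.add_lt_add hw hε
    have Ra : ∀ p, R (false :: p) + R (true :: p) ≤ R p := fun p => by
      rw [← ENNReal.tsum_add]
      refine ENNReal.tsum_le_tsum fun i => ?_
      have sub : ∀ b, t i ⊆ cyl (b :: p) → t i ⊆ cyl p := fun b h _ hx => (cyl_cons.1 (h hx)).2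
      by_cases a : (t i).Nonempty ∧ t i ⊆ cyl (false :: p)
      · have b : ¬ ((t i).Nonempty ∧ t i ⊆ cyl (true :: p)) := fun ⟨⟨x, hx⟩, b⟩ => by
          simpa using (cyl_cons.1 (a.2 hx)).1.symm.trans (cyl_cons.1 (b hx)).1
        rw [if_pos a, if_neg b, if_pos ⟨a.1, sub _ a.2⟩, add_zero]
      · rw [if_neg a, zero_add]
        by_cases b : (t i).Nonempty ∧ t i ⊆ cyl (true :: p)
        · rw [if_pos b, if_pos ⟨b.1, sub _ b.2⟩]
        · rw [if_neg b]; exact zero_le
    have Ru : ∀ p i, (t i).Nonempty → t i ⊆ cyl p → u i ≤ R p := fun p i a b =>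
      le_trans (by rw [if_pos ⟨a, b⟩]) (ENNReal.le_tsum i)
    obtain ⟨x, hx⟩ := play fun p => if R (false :: p) < μ (false :: p) then false else true
    have inv : ∀ n, R (res x n) < μ (res x n) := by
      intro n
      induction n with
      | zero => exact R0
      | succ n ih =>
        rw [res_succ, hx n]
        split_ifs with c
        · exact c
        · by_contra c'
          exact ih.not_ge ((μa _).ge.trans ((add_le_add (not_lt.1 c) (not_lt.1 c')).trans (Ra _)))
    obtain ⟨i, hi⟩ := mem_iUnion.1 (ht (fun n => (zero_le.trans_lt (inv n)).ne' : x ∈ S))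
    have bd : ∀ n, t i ⊆ cyl (res x n) → u i < (2⁻¹ ^ n) ^ (δ : ℝ) := fun n h => by
      have := capw (res x n)
      rw [res_length] at this
      exact ((Ru _ i ⟨x, hi⟩ h).trans_lt (inv n)).trans_le ((μc _).trans this)
    have sb : ∀ n, t i ⊆ cyl (res x n) := by
      intro n
      induction n with
      | zero => simp [cyl]
      | succ n ih =>
        intro y hy
        rw [res_succ, cyl_cons, res_length]
        refine ⟨by_contra fun c => (bd n ih).not_ge ?_, ih hy⟩
        exact le_trans (le_iSup_of_le ⟨x, hi⟩ (ENNReal.rpow_le_rpow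
          ((dge c).trans (edist_le_ediam_of_mem hy hi)) d0.le)) le_self_add
    have tz' : Tendsto (fun n : ℕ => ((2⁻¹ : ℝ≥0∞) ^ n) ^ (δ : ℝ)) atTop (𝓝 0) := by
      have := (ENNReal.continuous_rpow_const (y := (δ : ℝ))).continuousAt.tendsto.comp tz
      rwa [ENNReal.zero_rpow_of_pos d0] at this
    obtain ⟨n, hn⟩ := (tz'.eventually (ge_mem_nhds (ε0 i))).exists
    exact (bd n (sb n)).not_ge (hn.trans le_add_self)

theorem sdr {X J : Type} (Q : J → Set X) (hJ : ∀ j, #J ≤ #(Q j)) :
    ∃ f : J → X, Function.Injective f ∧ ∀ j, f j ∈ Q j := by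
  obtain ⟨_, _, ho⟩ := exists_ord_eq_type_lt J
  have step : ∀ (j : J) (g : Iio j → X), ∃ x ∈ Q j, ∀ z, g z ≠ x := by
    intro j g
    by_contra h
    push Not at h
    have : Q j ⊆ range g := fun x hx => h x hx
    exact (mk_Iio_lt j ho).not_ge ((hJ j).trans ((mk_le_mk_of_subset this).trans mk_range_le))
  choose st h1 h2 using step
  let f : J → X := WellFounded.fix (wellFounded_lt (α := J))
    (fun w ih => st w (fun z => ih z.1 z.2))
  have hf : ∀ w, f w = st w (fun z => f z.1) := fun w => WellFounded.fix_eq _ _ _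
  have key : ∀ v w, v < w → f v ≠ f w := fun v w h => by
    rw [hf w]; exact h2 w (fun z => f z.1) ⟨v, h⟩
  refine ⟨f, fun v w h => ?_, fun j => by rw [hf]; exact h1 _ _⟩
  rcases lt_trichotomy v w with c | c | c
  · exact absurd h (key _ _ c)
  · exact c
  · exact absurd h.symm (key _ _ c)

theorem bern {X I : Type} (Q : I → Set X) (hI : #I ≤ 𝔠) :
    ∃ B : Set X, ∀ i, 𝔠 ≤ #(Q i) → (∃ x ∈ Q i, x ∈ B) ∧ ∃ x ∈ Q i, x ∉ B := by
  obtain ⟨f, h1, h2⟩ := sdr (J := {i // 𝔠 ≤ #(Q i)} × Bool) (fun j => Q j.1.1) fun j => by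
    refine le_trans ?_ j.1.2
    rw [mk_prod, Cardinal.lift_id, Cardinal.lift_id]
    exact (mul_le_mul' ((mk_subtype_le _).trans hI)
      (mk_le_aleph0.trans aleph0_le_continuum)).trans continuum_mul_self.le
  refine ⟨range fun i => f (i, true), fun i hi => ⟨⟨_, h2 (⟨i, hi⟩, true), _, rfl⟩,
    _, h2 (⟨i, hi⟩, false), ?_⟩⟩
  rintro ⟨j, hj⟩
  simpa using congrArg Prod.snd (h1 hj)

theorem exSt (ys : List Bool → ℕ → ℕ → Bool) (Ls : List Bool → ℕ → ℕ) :
    ∃ (Y : List Bool → ℕ → Bool) (L c : List Bool → ℕ) (G : List Bool → Prop),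
      (Y [] = ys [] 0 ∧ L [] = Ls [] 0 ∧ c [] = 0) ∧
      (∀ b p, L p = p.length → Y (b :: p) = ys (b :: p) (c p + 1) ∧
        L (b :: p) = Ls (b :: p) (c p + 1) ∧ c (b :: p) = c p + 1) ∧
      (∀ b p, L p ≠ p.length → Y (b :: p) = Y p ∧ L (b :: p) = L p ∧ c (b :: p) = c p) ∧
      G [] ∧ ∀ b p, G (b :: p) ↔ G p ∧ (L p = p.length ∨ b = Y p p.length) := by
  let st : List Bool → (ℕ → Bool) × ℕ × ℕ := fun p => List.rec (ys [] 0, Ls [] 0, 0)
    (fun b p a => if a.2.1 = p.length then
      (ys (b :: p) (a.2.2 + 1), Ls (b :: p) (a.2.2 + 1), a.2.2 + 1) else a) p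
  have e : ∀ b p, st (b :: p) = if (st p).2.1 = p.length then
      (ys (b :: p) ((st p).2.2 + 1), Ls (b :: p) ((st p).2.2 + 1), (st p).2.2 + 1) else st p :=
    fun b p => rfl
  refine ⟨fun p => (st p).1, fun p => (st p).2.1, fun p => (st p).2.2,
    fun p => List.rec True (fun b p g => g ∧ ((st p).2.1 = p.length ∨ b = (st p).1 p.length)) p,
    ⟨rfl, rfl, rfl⟩, fun b p h => ?_, fun b p h => ?_, trivial, fun b p => Iff.rfl⟩
  · simp only [e, if_pos h, and_self]
  · simp only [e, if_neg h, and_self]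

theorem result (T : Set (List Bool)) (hT : Subtree T) (hd : 1 / 2 < dimH (canopy T))
    (δ : ℝ≥0∞) (h1 : 1 / 2 ≤ δ) (h2 : δ ≤ dimH (canopy T)) :
    ∃ W WI WII : Set (ℕ → Bool), W ⊆ canopy T ∧ WI ⊆ canopy T ∧ WII ⊆ canopy T ∧
      dimH W = δ ∧ dimH WI = δ ∧ dimH WII = δ ∧
      (¬ WinI T W ∧ ¬ WinII T W) ∧ WinI T WI ∧ WinII T WII := by
  classical
  let K : List Bool → Prop := fun p => 1 / 2 < dimH (canopy T ∩ cyl p)
  have KT : ∀ p, K p → p ∈ T := fun p h => by
    rcases (canopy T ∩ cyl p).eq_empty_or_nonempty with e | ⟨x, a, b⟩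
    · simp [K, e] at h
    · exact b ▸ a p.length
  have K0 : K [] := by simpa [K, cyl] using hd
  have Kres : ∀ y L n, n ≤ L → K (res y L) → K (res y n) := fun y L n h k =>
    k.trans_le (dimH_mono (inter_subset_inter_right _ fun x hx => cyl_res.2
      (res_eq_res.2 fun i hi => res_eq_res.1 (cyl_res.1 hx) (by omega))))
  have Kc : ∀ b p, K (b :: p) → K p := fun b p k =>
    k.trans_le (dimH_mono (inter_subset_inter_right _ fun x hx => (cyl_cons.1 hx).2))
  have split : ∀ (p : List Bool) (c : ℕ), ∃ (y : ℕ → Bool) (L : ℕ), K p → res y p.length = p ∧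
      p.length < L ∧ L % 2 = c % 2 ∧ ∀ b, K (b :: res y L) := by
    intro p c
    by_contra h
    push Not at h
    have hp := (h (fun _ => false) 0).1
    let Z := {x ∈ cyl p | ∀ n, K (res x n)}
    have hZ : dimH Z ≤ 1 / 2 := par c (p.length + 1) fun x hx y hy n a b e => by
      by_contra k
      obtain ⟨d, hd⟩ := (h x n).2 hx.1 a b
      by_cases k' : d = x n
      · exact hd (k' ▸ hx.2 (n + 1))
      · have : d = y n := by
          revert k k'
          cases d <;> cases x n <;> cases y n <;> simp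
        exact hd (this ▸ e ▸ hy.2 (n + 1))
    have : canopy T ∩ cyl p ⊆ Z ∪ ⋃ q : {q // ¬ K q}, canopy T ∩ cyl q.1 := fun x hx => by
      by_cases k : ∀ n, K (res x n)
      · exact Or.inl ⟨hx.2, k⟩
      · push Not at k
        obtain ⟨n, hn⟩ := k
        exact Or.inr (mem_iUnion.2 ⟨⟨_, hn⟩, hx.1, cyl_res.2 rfl⟩)
    refine hp.not_ge ((dimH_mono this).trans ?_)
    rw [dimH_union, dimH_iUnion]
    exact max_le hZ (iSup_le fun q => not_lt.1 q.2)
  choose ys Ls hsp using split
  obtain ⟨Y, L, c, G, s0, s1, s2, G0, G1⟩ := exSt ys Ls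
  have inv : ∀ p, G p → res (Y p) p.length = p ∧ p.length ≤ L p ∧ L p % 2 = c p % 2 ∧
      ∀ b, K (b :: res (Y p) (L p)) := by
    intro p
    induction p with
    | nil =>
      intro _
      rw [s0.1, s0.2.1, s0.2.2]
      obtain ⟨a, b, e⟩ := hsp [] 0 K0
      exact ⟨a, b.le, e⟩
    | cons b p ih =>
      intro g
      obtain ⟨g1, g2⟩ := (G1 b p).1 g
      obtain ⟨i1, i2, i3, i4⟩ := ih g1
      by_cases f : L p = p.length
      · obtain ⟨e1, e2, e3⟩ := s1 b p f
        rw [e1, e2, e3]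
        rw [f, i1] at i4
        obtain ⟨a, b, e⟩ := hsp _ (c p + 1) (i4 b)
        exact ⟨a, b.le, e⟩
      · obtain ⟨e1, e2, e3⟩ := s2 b p f
        rw [e1, e2, e3, List.length_cons, res_succ, i1, ← g2.resolve_left f]
        exact ⟨rfl, by omega, i3, i4⟩
  have GT : ∀ p, G p → p ∈ T := fun p g => by
    obtain ⟨i1, i2, -, i4⟩ := inv p g
    exact KT p (i1 ▸ Kres _ _ _ i2 (Kc _ _ (i4 true)))
  have nf : ∀ b p, G p → L p = p.length → L (b :: p) ≠ (b :: p).length := fun b p g f => by
    obtain ⟨i1, -, -, i4⟩ := inv p g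
    rw [f, i1] at i4
    rw [(s1 b p f).2.1]
    exact (hsp _ _ (i4 b)).2.1.ne'
  have gm : ∀ (x : ℕ → Bool) n k, n ≤ k → G (res x k) → G (res x n) := by
    intro x n k h
    induction h with
    | refl => exact id
    | step _ ih => exact fun g => ih ((G1 _ _).1 g).1
  have : ∀ p, ∃ b, p ∈ T → b :: p ∈ T := fun p => by
    by_cases h : p ∈ T
    · exact (hT.2 p h).imp fun b k _ => k
    · exact ⟨true, fun k => absurd k h⟩
  choose τ hτ using this
  have : ∀ z : ℕ → Bool, ∃ σ : List Bool → Bool, (∀ p, G p → G (σ p :: p)) ∧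
      (∀ p, ¬ G p → σ p = τ p) ∧ ∀ p, G p → L p = p.length → σ p = z (c p / 2) := fun z => by
    refine ⟨fun p => if G p then (if L p = p.length then z (c p / 2) else Y p p.length) else τ p,
      fun p g => (G1 _ _).2 ⟨g, ?_⟩, fun p g => if_neg g, fun p g f => by simp [g, f]⟩
    by_cases f : L p = p.length
    · exact Or.inl f
    · exact Or.inr (by simp [g, f])
  choose σ σg σn σf using this
  have σT : ∀ z p, p ∈ T → σ z p :: p ∈ T := fun z p h => by
    by_cases g : G p
    · exact GT _ (σg z p g)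
    · rw [σn z p g]; exact hτ p h
  have : ∀ (j : ℕ) (s : List Bool → Bool) (z : ℕ → Bool), ∃ x : ℕ → Bool, Follows j s x ∧
      (∀ n, n % 2 ≠ j → x n = σ z (res x n)) ∧ (Strat T j s → x ∈ canopy T) := by
    intro j s z
    obtain ⟨x, hx⟩ := play fun p => if p.length % 2 = j then s p else σ z p
    simp only [res_length] at hx
    refine ⟨x, fun n h => by rw [hx, if_pos h], fun n h => by rw [hx, if_neg h], fun hs n => ?_⟩
    induction n with
    | zero => exact KT _ K0
    | succ n ih =>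
      rw [res_succ, hx]
      split_ifs with h
      · exact hs _ ih (by rwa [res_length])
      · exact σT z _ ih
  choose pl p1 p2 p3 using this
  let Z := {x : ℕ → Bool | ∀ n, G (res x n)}
  have ZT : Z ⊆ canopy T := fun x hx n => GT _ (hx n)
  have dZ : dimH Z ≤ 1 / 2 := by
    refine thin (fun x k => if L (res x (2 * k)) = 2 * k then x (2 * k) else x (2 * k + 1))
      fun x hx y hy k e1 e2 => ?_
    have a : ∀ n, res x n = res y n → L (res x n) ≠ n → x n = y n := fun n e f => by
      have u := ((G1 _ _).1 (hx (n + 1))).2.resolve_left (by rwa [res_length])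
      have v := ((G1 _ _).1 (hy (n + 1))).2.resolve_left (by rwa [res_length, ← e])
      rw [u, v, e]
    rw [← e1] at e2
    have b : x (2 * k) = y (2 * k) := by
      by_cases f : L (res x (2 * k)) = 2 * k
      · simpa only [if_pos f] using e2
      · exact a _ e1 f
    have a1 : res x (2 * k + 1) = res y (2 * k + 1) := by rw [res_succ, res_succ, b, e1]
    have a2 : x (2 * k + 1) = y (2 * k + 1) := by
      by_cases f : L (res x (2 * k)) = 2 * k
      · refine a _ a1 ?_
        simpa [res_succ] using nf (x (2 * k)) _ (hx (2 * k)) (by rwa [res_length])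
      · simpa only [if_neg f] using e2
    rw [res_succ, res_succ y, a1, a2]
  have reach : ∀ x ∈ Z, ∀ i, ∃ n, L (res x n) = n ∧ c (res x n) = i := by
    intro x hx
    have A : ∀ k n, L (res x n) = n + k → ∃ m, L (res x m) = m ∧ c (res x m) = c (res x n) := by
      intro k
      induction k with
      | zero => exact fun n h => ⟨n, h, rfl⟩
      | succ k ih =>
        intro n h
        obtain ⟨-, e2, e3⟩ := s2 (x n) (res x n) (by rw [res_length]; omega)
        rw [← e3]
        exact ih (n + 1) (by rw [res_succ, e2]; omega)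
    have B : ∀ n, ∃ m, L (res x m) = m ∧ c (res x m) = c (res x n) := fun n => by
      have := (inv _ (hx n)).2.1
      rw [res_length] at this
      exact A (L (res x n) - n) n (by omega)
    intro i
    induction i with
    | zero => exact s0.2.2 ▸ B 0
    | succ i ih =>
      obtain ⟨n, a, b⟩ := ih
      have := B (n + 1)
      rwa [res_succ, (s1 _ _ (by rwa [res_length])).2.2, b] at this
  have big : ∀ j < 2, ∀ s, (∀ z, pl j s z ∈ Z) → 𝔠 ≤ #(range (pl j s)) := by
    intro j hj s h
    rw [mk_range_eq _ fun z z' e => funext fun i => ?_]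
    · simp
    obtain ⟨n, a, b⟩ := reach _ (h z) (2 * i + (1 - j))
    have g := h z n
    have := (inv _ g).2.2.1
    rw [a, b] at this
    have u := p2 j s z n (by omega)
    have v := p2 j s z' n (by omega)
    rw [← e] at v
    rw [σf _ _ g (by rwa [res_length]), b, show (2 * i + (1 - j)) / 2 = i by omega] at u v
    exact u.symm.trans v
  obtain ⟨B, hB⟩ := bern (fun i : ℕ × (List Bool → Bool) => range (pl i.1 i.2)) (by simp)
  let D : ℕ → ℕ → Set (ℕ → Bool) := fun j n =>
    {x | ∀ k, n ≤ k → k % 2 = j % 2 → x k = τ (res x k)}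
  have dD : ∀ j, dimH (⋃ n, D j n) ≤ 1 / 2 := fun j => by
    rw [dimH_iUnion]
    exact iSup_le fun n => par j n fun x hx y hy k a b e => by rw [hx k a b, hy k a b, e]
  let N := {x : ℕ → Bool | ∀ n, n % 2 = 1 →
    (G (res x n) → G (res x (n + 1))) ∧ (¬ G (res x n) → x n = τ (res x n))}
  have dN : dimH N ≤ 1 / 2 := by
    have : N ⊆ Z ∪ ⋃ n, D 1 n := fun x hx => by
      by_cases k : ∀ n, G (res x n)
      · exact Or.inl k
      · push Not at k
        obtain ⟨n, hn⟩ := k
        exact Or.inr (mem_iUnion.2 ⟨n, fun k a b => (hx k b).2 fun g => hn (gm x n k a g)⟩)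
    refine (dimH_mono this).trans ?_
    rw [dimH_union]
    exact max_le dZ (dD 1)
  have fN : ∀ z x, (∀ n, n % 2 = 1 → x n = σ z (res x n)) → x ∈ N := fun z x h n hn =>
    ⟨fun g => by rw [res_succ, h n hn]; exact σg z _ g, fun g => by rw [h n hn, σn z _ g]⟩
  have dC : dimH (canopy T) ≤ dimH (canopy T \ N) := by
    have := dimH_mono (subset_diff_union (canopy T) N)
    rw [dimH_union] at this
    exact (le_max_iff.1 this).resolve_right (dN.trans_lt hd).not_ge
  obtain ⟨A, hA, dA⟩ : ∃ A ⊆ canopy T \ N, dimH A = δ := by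
    rcases h2.eq_or_lt with e | e
    · exact ⟨_, Subset.rfl, le_antisymm (e ▸ dimH_mono diff_subset) (e ▸ dC)⟩
    have : canopy T \ N ⊆ ⋃ q : {q // ∀ x ∈ cyl q, x ∉ N}, canopy T ∩ cyl q.1 := by
      rintro x ⟨a, b⟩
      simp only [N, mem_setOf_eq, not_forall] at b
      obtain ⟨n, hn, b⟩ := b
      refine mem_iUnion.2 ⟨⟨res x (n + 1), fun y hy k => b ?_⟩, a, cyl_res.2 rfl⟩
      have e1 := cyl_res.1 hy
      have e2 := e1
      rw [res_succ, res_succ, List.cons.injEq] at e2
      rw [← e1, ← e2.1, ← e2.2]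
      exact k n hn
    have := e.trans_le (dC.trans (dimH_mono this))
    rw [dimH_iUnion, lt_iSup_iff] at this
    obtain ⟨q, hq⟩ := this
    lift δ to ℝ≥0 using e.ne_top
    have hF : ∀ x, (∀ n, ∃ y ∈ canopy T ∩ cyl q.1, res y n = res x n) →
        x ∈ canopy T ∩ cyl q.1 := fun x hx => by
      refine ⟨fun n => ?_, ?_⟩
      · obtain ⟨y, a, b⟩ := hx n
        exact b ▸ a.1 n
      · obtain ⟨y, a, b⟩ := hx q.1.length
        exact b.symm.trans a.2
    obtain ⟨A, a, b⟩ := besi hF (ENNReal.coe_pos.1 (lt_of_lt_of_le (by simp) h1)) hq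
    exact ⟨A, fun x hx => ⟨(a hx).1, q.2 x (a hx).2⟩, b⟩
  have dU : ∀ S, dimH S ≤ 1 / 2 → dimH (S ∪ A) = δ := fun S h => by
    rw [dimH_union, dA, max_eq_right (h.trans h1)]
  let E := {x ∈ canopy T | ∃ n, n % 2 = 1 ∧ G (res x n) ∧ ¬ G (res x (n + 1)) ∧ x ∈ D 0 (n + 1)}
  refine ⟨(B ∩ Z ∪ E) ∪ A, (canopy T ∩ D 0 0) ∪ A, A,
    union_subset (union_subset (fun x hx => ZT hx.2) fun x hx => hx.1) fun x hx => (hA hx).1,
    union_subset inter_subset_left fun x hx => (hA hx).1, fun x hx => (hA hx).1, dU _ ?_,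
    dU _ ((dimH_mono fun x hx => mem_iUnion.2 ⟨0, hx.2⟩).trans (dD 0)), dA, ⟨?_, ?_⟩,
    ⟨τ, fun p h _ => hτ p h, fun x a b => Or.inl ⟨a, fun k _ h => b k h⟩⟩,
    ⟨σ fun _ => false, fun p h _ => σT _ p h, fun x _ b k => (hA k).2 (fN _ x b)⟩⟩
  · rw [dimH_union]
    refine max_le ((dimH_mono inter_subset_right).trans dZ) ((dimH_mono ?_).trans (dD 0))
    rintro x ⟨-, n, -, -, -, h⟩
    exact mem_iUnion.2 ⟨_, h⟩
  · rintro ⟨s, hs, hw⟩
    have key : ∀ z, pl 0 s z ∈ B ∩ Z := fun z => by
      have hN := fN z _ fun n hn => p2 0 s z n (by omega)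
      rcases hw _ (p3 0 s z hs) (p1 0 s z) with (h | ⟨-, n, a, b, d, -⟩) | h
      · exact h
      · exact absurd ((hN n a).1 b) d
      · exact absurd hN (hA h).2
    obtain ⟨_, ⟨z, rfl⟩, h⟩ := (hB (0, s) (big 0 two_pos s fun z => (key z).2)).2
    exact h (key z).1
  · rintro ⟨s, hs, hw⟩
    have key : ∀ z, pl 1 s z ∈ Z := fun z n => by
      induction n with
      | zero => exact G0
      | succ n ih =>
        by_contra g
        refine hw _ (p3 1 s z hs) (p1 1 s z) (Or.inl (Or.inr ⟨p3 1 s z hs, n, ?_, ih, g,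
          fun k a b => ?_⟩))
        · by_contra h
          rw [res_succ, p2 1 s z n h] at g
          exact g (σg z _ ih)
        · rw [p2 1 s z k (by omega), σn z _ fun g' => g (gm _ _ k a g')]
    obtain ⟨_, ⟨z, rfl⟩, h⟩ := (hB (1, s) (big 1 one_lt_two s key)).1
    exact hw _ (p3 1 s z hs) (p1 1 s z) (Or.inl (Or.inl ⟨h, key z⟩))

end Pool.Agent.Results.MP_decccb_lc.Full
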